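import Pool.Agent.Y174.RA.A6
import Pool.Agent.Y174.SD.G14

/-!
MP_f72953_ag, Q1: Iitaka's inequality, also for pairs and for the orbifold base of the fibration, for
fibrations whose total space has no common zeros of the (orbifold) symmetric differentials on the
tangent vectors along the fibres.
-/

set_option autoImplicit false

open Pool.Agent.W619.TW Pool.Agent.W619.Y Pool.Agent.W619.PQ Pool.Agent.Y174 FF

namespace Pool.Agent.Results.MP_f72953_ag.FibrewiseSymmetricDifferentials

/-- Let `E → B` be a dominant rational map of projective varieties (for instance a fibration) with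
function fields `K` and `L`, `dim B = d`, `dim E = d + s`, `s ≥ 1`.

(a) Let `δ v ≥ 0` be the multiplicities of a boundary `Δ` on `E` (minus the discrepancies of the pair
`(E, Δ)`, cut off at `0`), for all prime divisors `v` over `E`, and `δB u ≤ 1` those of a boundary
`Δ_B` on `B`, such that `1 - e (1 - δB u) ≤ δ v` if `v` lies over `u` with ramification index `e`;
for `Δ = 0` this says `δB u ≤ 1 - 1 / e` (the orbifold base of the fibration). If the orbifold
symmetric differentials of positive degrees of `(E, Δ)` have no common zeros on the tangent vectors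
along the fibres at the geometric generic point (`NoBaseRel`), then
`κ (K_E + Δ) ≥ κ (K_B + Δ_B)`.

(b) In particular, if the regular symmetric differentials of positive degrees of `E` have no common
zeros on the tangent vectors along the fibres at the geometric generic point, then `κ (E) ≥ κ (B)`. -/
theorem result {L K : Type} [Field L] [Field K] [Algebra ℂ L] [Algebra ℂ K] [Algebra L K]
    [IsScalarTower ℂ L K] [Algebra.EssFiniteType ℂ L] [Algebra.EssFiniteType ℂ K] {d s : ℕ}
    (hB : Algebra.trdeg ℂ L = d) (hE : Algebra.trdeg ℂ K = (d + s : ℕ)) (hs : 1 ≤ s) :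
    (∀ (δ : Place ℂ K → ℝ) (δB : Place ℂ L → ℝ), (∀ v, 0 ≤ δ v) → (∀ u, δB u ≤ 1) →
      (∀ (v : Place ℂ K) (u : Place ℂ L) (e : ℕ), LiesOn v u e → 1 - e * (1 - δB u) ≤ δ v) →
      NoBaseRel L (d + s) δ → ∀ h, PairKod ℂ L d δB h → PairKod ℂ K (d + s) δ h) ∧
    (NoBaseRel L (d + s) (fun _ : Place ℂ K => 0) → ∀ h, KodTr ℂ L d h →
      KodTr ℂ K (d + s) h) := by
  have hL0 : CharZero L := charZero_of_injective_algebraMap (algebraMap ℂ L).injective
  have key : ∀ (δ : Place ℂ K → ℝ) (δB : Place ℂ L → ℝ), (∀ v, 0 ≤ δ v) → (∀ u, δB u ≤ 1) →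
      (∀ (v : Place ℂ K) (u : Place ℂ L) (e : ℕ), LiesOn v u e → 1 - e * (1 - δB u) ≤ δ v) →
      NoBaseRel L (d + s) δ → ∀ h, PairKod ℂ L d δB h → PairKod ℂ K (d + s) δ h :=
    fun δ δB h1 h2 h3 h4 h h5 => RA.main_rel ‹Algebra.EssFiniteType ℂ L›
      ‹Algebra.EssFiniteType ℂ K› hB hE hs h1 h2 h3 h4 h5
  refine ⟨key, fun h4 h h5 => ?_⟩
  refine SD.kod_zero.1 (key (fun _ => 0) (fun _ => 0) (fun _ => le_rfl) (fun _ => zero_le_one)
    (fun v u e hv => ?_) h4 h (SD.kod_zero.2 h5))
  have h6 : (1 : ℝ) ≤ e := by exact_mod_cast hv.1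
  linarith

end Pool.Agent.Results.MP_f72953_ag.FibrewiseSymmetricDifferentials
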