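import Pool.Agent.X180.OD.Base

/-!
# Iitaka's inequality with the orbifold base

Let `f : X ⇢ Y` be a dominant rational map, `X` a projective variety with canonical singularities
(for instance smooth), `Y` a variety of any kind, and let `κ(Y|f)` be the Kodaira dimension of the
orbifold base of `f` (Campana): the pluricanonical forms of degree `m` on `Y` with poles of order at
most `m (1 - 1 / ν)` at a divisor `p` (of a model of `Y`), where `ν` is the smallest multiplicity of a
prime divisor of `X` over `p`, are considered; so `κ(Y|f) ≥ κ(Y)`, and often `κ(Y|f) ≥ 0` if `Y` is
rational. Suppose that `κ(Y|f) ≥ k ≥ 0`, and let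

  `X ⇢ W_l ⇢ ... ⇢ W_1 ⇢ W_0 = Y`, `l ≥ 0`,

be dominant rational maps. Suppose that for each `i < l` one of the following holds, where
`e_i = dim W_{i+1} - dim W_i`:

* (constant) the fibres of `W_{i+1}` over `W_i`, *with the multiplicities of the fibres of `X` over
  `W_{i+1}`*, correspond to one orbifold `V_i` of dimension `e_i`: there are a variety `X'` with a
  generically finite map `X' ⇢ X` (ramified anywhere) and a rational map `X' ⇢ V_i` which is constant
  on the fibres of `X' ⇢ W_{i+1}`, and dominant on the fibres of `X' ⇢ W_i`; `a (p)` is a nonnegative
  function (the log discrepancy of an orbifold divisor on `V_i`) of the places `p` in the image of the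
  prime divisors of `X`, and there are pluricanonical forms on `V_i`, of some degree `m`, with poles of
  order at most `m (1 - a (p))` at these `p`, with `λ_i ≥ 0` algebraically independent ratios; and if
  `Q` is a place of the function field of `X'` over a prime divisor `P` of `X` which dominates `W_i`
  but not `W_{i+1}`, with ramification index `ε`, then `ε ≤ ν a (p)` if `Q` lies over the place `p` of
  `V_i`, with ramification index `ν`, and `ε ≤ 1` if `Q` dominates `V_i`. (For instance `V_i` is a
  smooth projective variety with `κ(V_i) ≥ λ_i`, `a = 1`, and `W_{i+1} ×_{W_i} W_i' → V_i × W_i'` is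
  generically finite, after a generically finite base change `W_i' → W_i`.)
* (orbifold) the fibres of `W_{i+1}` over `W_i`, with the multiplicities of the fibres of `X` over
  `W_{i+1}`, correspond to moving log canonical arrangements: there is a variety `X'` with a
  generically finite map `X' ⇢ X` and a rational map over `W_i` of `X'` to a relative product of
  projective spaces `P^{r_1} × ... × P^{r_c}`, `r_j ≥ 1`, whose fibres are, up to finite maps, the
  fibres of `X' ⇢ W_{i+1}`; in each `P^{r_j}` there are any hyperplanes `A j k = 0`, in any position,
  which move with the point of a variety finite over `W_i`, with weights `w j k ≥ 0`, such that the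
  arrangement is log canonical (the sum of the weights of hyperplanes with a common point is at most
  the codimension of their intersection) and `∑ k, w j k ≥ r_j + 1`. If `Q` is a place of the function
  field of `X'` over a prime divisor `P` of `X` which dominates `W_i` but not `W_{i+1}`, with
  ramification index `ε`, and `e j k` are the multiplicities of the hyperplanes at `Q`, not all zero,
  then `ε ≤ ∑ (mx_j - ∑ w j k e j k)`, where `mx_j` is the greatest sum of `r_j + 1` of the `e j k`
  whose hyperplanes have no common point (`ε ≤ 1`, if all `e j k` are zero). Let `λ_i` be the sum of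
  the `r_j` with `∑ k, w j k > r_j + 1`.

Suppose that there is a correspondence `X'` as above between `X` and a relative product
`P^{r_1} × ... × P^{r_c}` over `W_l` (`c = 0` is allowed: then `X ⇢ W_l` is generically finite), with
log canonical moving hyperplane arrangements with weights in `[0, 1]` (with any sum) and the same
condition at the prime divisors of `X` which dominate `W_l`; and if `Q` is a place of the function
field of `X'` over a prime divisor of `P^{r_1} × ... × P^{r_c}` over `W_l`, with ramification index `ρ`,
and with ramification index `ε` over `X`, then `ρ - ε ≤ ∑ w j k e j k`. Let `λ` be the sum of the `r_j`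
with `∑ k, w j k > r_j + 1`. For instance the fibres may be products of elliptic curves, or K3
surfaces which are double planes over six lines, with any variation.

Then, if `∑ k, w j k ≥ r_j + 1` for all `j` (for the fibres over `W_l`),

  `κ(X) ≥ κ(Y|f) + λ_0 + λ_1 + ... + λ_{l-1} + λ`

(with `k` in the place of `κ(Y|f)`), and otherwise `κ(X) = ν(X) = -∞`. If moreover `k = dim Y` and
`λ_i = e_i` for all `i`, then `κ(X) = ν(X) = dim W_l + λ` in the first case.

Relation with Iitaka's question: if all `λ_i = e_i`, then the second part, for the general fibre `F`
of `f` (and `Y` a point), says that `κ(F) = λ_0 + ... + λ_{l-1} + λ` (or `κ(F) = -∞`), so that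
`κ(X) ≥ κ(Y|f) + κ(F) ≥ κ(Y) + κ(F)`. This is Q1 for `f`, in the stronger form with the orbifold base.

The language and the definitions of `Pool.Agent.Y172` are used: `X` is given by the homogeneous
coordinates `y` of its generic point, with values in the function field `K` of `X`; the prime divisors
of `X` are places `P` of `K`, `P.ord` is the order along `P`; `kodairaDim` and `numericalDim` are the
literal definitions of the Kodaira and of the numerical dimension by means of the dimensions of the
spaces of sections of `m K_X` and of `m K_X + A`. `E i` is the function field of `W_i`, `E 0` the one of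
`Y`. Definitions: `Pool/Agent/X180/OD/BaseDefs` (`BaseKodGe`), `OD/Defs` (`ConstantFibres`, `IsTower`),
`OP/Defs` (`OrbifoldFibres`), `OP/CanDefs`.

Proof: the forms of the steps have coefficients which are algebraic over the function fields of the
`W_{i+1}`, and their norms are estimated at the prime divisors of `X` (`Pool.Agent.X180.OC.const_part`,
`Pool.Agent.X180.Orb.lc_part`). The forms of the steps and of the orbifold base are multiplied along
adapted regular vector fields. If some `∑ k, w j k < r_j + 1` the traces of the pull backs to `X'` of
the sections of `m K_X + A` vanish for large `m`, and they are polynomials of bounded degree in the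
coordinates of the factors with `∑ k, w j k = r_j + 1` (`Pool.Agent.Y191.lc_ab`).
-/

set_option autoImplicit false

open FF Pool.Agent.W602.GT Pool.Agent.Y172 Pool.Agent.Y191 Pool.Agent.X180.OP Pool.Agent.X180.OD

namespace Pool.Agent.Results.MP_f72953_ag.OrbifoldBases

/-- **Iitaka's inequality with the orbifold base.** Let `X` be a projective variety with canonical
singularities and `X ⇢ W_l ⇢ ... ⇢ W_0 = Y` a tower of dominant rational maps such that the orbifold
base of `X ⇢ Y` has Kodaira dimension at least `k`, the steps are as in `OrbifoldFibres` or
`ConstantFibres` for the prime divisors of `X`, of dimensions `e i` and log Kodaira dimensions `lam i`,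
and the fibres of `X` over `W_l` are as in `CanonicalFibres`. If `r j + 1 ≤ ∑ i, w j i` for all `j` then
`κ(X) ≥ k + ∑ i, lam i + big`; otherwise `κ(X) = ν(X) = -∞`. If `k = dim Y` and `lam i = e i` for all
`i`, then moreover `κ(X) = ν(X) = dim W_l + big` in the first case. -/
theorem result (K : Type) [Field K] [Algebra ℂ K] (N l c k : ℕ)
    (E : Fin (l + 1) → IntermediateField ℂ K) (D : Fin (l + 1) → ℕ) (e lam : Fin l → ℕ)
    (r s : Fin c → ℕ) (y : Fin (N + 1) → K)
    (hy : IsCanonicalVariety y (D (Fin.last l) + ∑ j, r j)) [Algebra.EssFiniteType ℂ (E 0)]
    (hY : BaseKodGe {P | IsPrimeDivisor y P} (E 0) (D 0) k)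
    (hT : IsTower {P | IsPrimeDivisor y P} (fun _ => 0) E D e lam)
    (w : ∀ j, Fin (s j) → ℚ) (hF : CanonicalFibres y (E (Fin.last l)) r s w) :
    CanonicalNonvanishing y (D (Fin.last l) + ∑ j, r j) (k + ∑ i, lam i + big r s w) r s w ∧
      (k = D 0 → (∀ i, lam i = e i) →
        CanonicalAbundance y (D (Fin.last l) + ∑ j, r j) (D (Fin.last l)) r s w) := by
  have hn : D (Fin.last l) + ∑ j, r j = D 0 + (∑ i, e i + ∑ j, r j) := by
    rw [Pool.Agent.X180.TP.dims fun i => (hT.2 i).2.1, add_assoc]
  have hK : Algebra.trdeg ℂ K = (D 0 + (∑ i, e i + ∑ j, r j) : ℕ) := by
    rw [← hn]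
    exact hy.2.1
  refine ⟨dcan_non hy hT hF fun lam' h0 => orb_base hK (hT.1 0) hY h0, fun hk hle => ?_⟩
  subst hk
  exact dcan_ab hy hT hle hF fun lam' h0 => orb_base hK (hT.1 0) hY h0

end Pool.Agent.Results.MP_f72953_ag.OrbifoldBases
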