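import Pool.Agent.X140.EF.TDefs

/-!
# Iitaka's inequality for towers of fibrations whose fibres dominate the product of any constant
variety and a multiple double cover with arbitrary moduli

Let `X → W` be a dominant rational map of projective varieties over `ℂ`, and `F` a component of its
geometric generic fibre, a variety over the algebraic closure `Λ` of the function field of `W`.
Suppose that `F` has a generically finite rational map, which may be ramified anywhere, to a product
`F₀ × Z`, where `F₀` is any variety which is defined over `ℂ` and `Z` is the multiple double cover

  `w k ^ 2 = c k * ∏ i ∈ S k, f i (x i)`, `k < p`,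

of the product of `r` lines over `Λ`, `c k ∈ Λ` not zero, `f i` a separable polynomial over `Λ` of
degree at least three, and every `i < r` lies in one of the sets `S k`. For `S k = {k}` this is a
product of elliptic and hyperelliptic curves; for `p = 1` it is a quotient of such a product, for
instance a Kummer surface of a product of two elliptic curves, or one of the Calabi–Yau varieties
`w ^ 2 = f 1 (x 1) ⋯ f r (x r)` with cubic polynomials `f i`. The coefficients may vary with the point
of `W`. Let `u` be the number of the `f i` of degree at least five. Then

  `κ(X) ≥ κ(W) + κ(F₀) + u`.

If `F` is birational to `F₀ × Z` then `κ(F) = κ(F₀) + u`, and this is Iitaka's inequality. No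
assumption is made on `F₀`: the existence of a good minimal model of `F`, for which the inequality is
known by Kawamata, is not needed; and nothing is assumed on `W` but `κ(W) ≥ 0`.

The theorem is proved for towers `X → W_l → ... → W_0`, `l ≥ 0`, of such maps: then
`κ(X) ≥ κ(W_0) + ∑ (κ(F₀ i) + u i)`, although the fibres of `X → W_0` need not be products.

Notation: `K` is the function field of `X`, the function fields `E i` of the `W_i` are subfields of
`K`. `KodTr k K n h`: the Kodaira dimension is at least `h`, that is, there are `h + 1` pluricanonical
forms of which the `h` ratios are algebraically independent (`Pool/Agent/W619`). The definitions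
`Dominates`, `HighDegree`, `IsGeometricFibre`, `CoverFibres` and `IsTower` are in
`Pool.Agent.X140.EF.TDefs`.

Proof: let `n` be the degree of `f = f i` or this degree plus one, an even number. The forms
`disc (f) (d x) ^ (n (n - 1)) / f (x) ^ (2 (n - 1))` and, after a multiplication with a power of it,
`(n f (x) f'' (x) - (n - 1) f' (x) ^ 2) (d x) ^ 2 / f (x) ^ 2` are products of logarithmic forms, with
zeros and poles of half integral orders, at the places of a base change `X' → X` which are trivial on
the function field of `W`, and regular at the others. A wedge product of logarithmic forms has at most
a simple pole, and by the equations of `Z` there is not exactly one form with a proper half integral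
order. So the products of these forms and of pluricanonical forms of `F₀` take regular values on the
regular vector fields along the fibres. The coefficients of the norms are forms along the fibres of
`X`, and the products with pull backs of pluricanonical forms of `W` are pluricanonical forms of `X`
(`Pool.Agent.X180.Tow.HasForms.comp`).
-/

set_option autoImplicit false

open Pool.Agent.W619.Y Pool.Agent.X140.EF

namespace Pool.Agent.Results.MP_f72953_ag.ProductAndCoverFibres

/-- **Iitaka's inequality.** Let `K` be the function field of a projective variety `X`, and
`X → W_l → ... → W_0` dominant maps of varieties with function fields `E i`, such that the fibres of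
`W_{i+1} → W_i` have a component which dominates `F₀ i × Z i`, with `κ(F₀ i) + u i ≥ k i`, and the
fibres of `X → W_l`, of dimension `e'`, have a component which dominates `F₀' × Z'`, with
`κ(F₀') + u' ≥ k'`. If `κ(W_0) ≥ κ` then `κ(X) ≥ κ + (∑ k i + k')`. -/
theorem result {K : Type} [Field K] [Algebra ℂ K] (l : ℕ)
    (E : Fin (l + 1) → IntermediateField ℂ K) [Algebra.EssFiniteType ℂ (E 0)] (D : Fin (l + 1) → ℕ)
    (e k : Fin l → ℕ) (hT : IsTower E D e k) (e' k' κ : ℕ)
    (hK : Algebra.trdeg ℂ K = (D (Fin.last l) + e' : ℕ)) (hF : CoverFibres (E (Fin.last l)) e' k')
    (hκ : KodTr ℂ (E 0) (D 0) κ) :
    KodTr ℂ K (D (Fin.last l) + e') (κ + (∑ i, k i + k')) := by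
  have h1 := hT.forms rfl hK hF {P | True}
  have h2 : D (Fin.last l) + e' = D 0 + (∑ i, e i + e') := by
    rw [tower_sum l D e fun i => (hT.2 i).2.2.1, add_assoc]
  rw [h2] at h1 hK ⊢
  exact kod_comp hK (hT.1 0) hκ h1

end Pool.Agent.Results.MP_f72953_ag.ProductAndCoverFibres
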