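import Pool.Agent.X140.FL.CanTop

/-!
# Iitaka's inequality for fibres which correspond to products of orbifolds and moving arrangements

Let `f : X ⇢ Y` be a dominant rational map, `X` a projective variety with canonical singularities
(for instance smooth), `Y` a variety of any kind, and suppose that the Kodaira dimension `κ(Y|f)` of
the orbifold base of `f` (Campana) is at least `k ≥ 0`: the pluricanonical forms of degree `m` on `Y`
with poles of order at most `m (1 - 1 / ν)` at a divisor `p` (of a model of `Y`) are considered, where
`ν` is the smallest multiplicity of a prime divisor of `X` over `p`. So `κ(Y|f) ≥ κ(Y)`. Let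

  `X ⇢ W_l ⇢ ... ⇢ W_1 ⇢ W_0 = Y`, `l ≥ 0` (for instance `l = 0`, `W_0 = Y`),

be dominant rational maps. Suppose:

* the fibres of `X` over `W_l` correspond to products of *one* orbifold `(V, a)` of dimension `f` and
  *moving* log canonical arrangements of hyperplanes: there are a variety `X'` with a generically
  finite map `X' ⇢ X`, *ramified anywhere* and not necessarily Galois, and a generically finite
  rational map `X' ⇢ W' × V × P^{r_1} × ... × P^{r_c}`, where `W'` is finite over `W_l`, compatible with
  the maps to `W_l`. Neither the projection to `V` nor the projection to the projective spaces has to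
  come from a rational map of `X`: for instance `X` may be a symmetric square, over `W_l`, of a product
  of `V` and a cover of projective spaces. `V` is any variety, and `a (p)` is a nonnegative function
  (the log discrepancy of an orbifold divisor) of the places `p` of `V` in the image of the prime
  divisors of `X`; there are pluricanonical forms on `V`, of some degree `m`, with poles of order at
  most `m (1 - a (p))` at these `p`, with `κ_V ≥ 0` algebraically independent ratios. (For instance `V`
  is smooth, `a = 1`, and `κ(V) ≥ κ_V`.) In each `P^{r_j}`, `r_j ≥ 1`, there are any hyperplanes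
  `A j i = 0`, in any position, which move with the point of a variety finite over `W_l`, with weights
  `w j i` in `[0, 1]` such that the arrangement is log canonical (the sum of the weights of
  hyperplanes with a common point is at most the codimension of their intersection);
* (multiplicities) if `Q` is a place of the function field of `X'` over a prime divisor `P` of `X`
  which dominates `W_l`, with ramification index `ε`, and `e j i` are the multiplicities of the
  hyperplanes at `Q`, then

    `ε ≤ ∑_j (mx_j - ∑_i w j i e j i) + ν a (p)`

  if `Q` lies over the place `p` of `V` with ramification index `ν`, where `mx_j` is the greatest sum of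
  `r_j + 1` of the `e j i` whose hyperplanes have no common point; and if `Q` dominates `V`, then
  `ε ≤ ∑_j (mx_j - ∑_i w j i e j i)`, or `ε ≤ 1`, if all `e j i` are zero. So the ramification over `V`
  and over the hyperplanes is *added*; there is no such condition at the divisors of `X` which do not
  dominate `W_l`, for instance no condition on the degenerate fibres;
* (ramification over the product) if `Q` is a place of the function field of `X'` over a prime divisor
  of `P^{r_1} × ... × P^{r_c}` over `W' × V`, with ramification index `ρ`, and with ramification index
  `ε` over `X`, then `ρ - ε ≤ ∑ w j i e j i`;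
* for each `i < l` the fibres of `W_{i+1}` over `W_i`, with the multiplicities of the fibres of `X`
  over `W_{i+1}`, correspond to one orbifold of dimension `e_i` and Kodaira dimension at least `λ_i`, or
  to moving log canonical arrangements of log Kodaira dimension `λ_i` (`IsTower`).

Then, if `∑ i, w j i ≥ r_j + 1` for all `j`,

  `κ(X) ≥ κ(Y|f) + λ_0 + ... + λ_{l-1} + κ_V + λ`

(with `k` in the place of `κ(Y|f)`), where `λ` is the sum of the `r_j` with `∑ i, w j i > r_j + 1`; and
otherwise `κ(X) = ν(X) = -∞`. If moreover `k = dim Y`, `λ_i = e_i` for all `i` and `κ_V = dim V`, then
`κ(X) = ν(X) = dim W_l + dim V + λ` in the first case.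

Relation with Iitaka's question: if `λ_i = e_i` and `κ_V = dim V`, then the second part, for the
general fibre `F` of `f`, says that `κ(F) = λ_0 + ... + λ_{l-1} + dim V + λ` (or `κ(F) = -∞`), so that
`κ(X) ≥ κ(Y|f) + κ(F) ≥ κ(Y) + κ(F)`: this is Q1 for `f`, in the stronger form with the orbifold base.
The variation of the fibres is arbitrary (that of the arrangements).

The language and the definitions of `Pool.Agent.Y172` are used: `X` is given by the homogeneous
coordinates `y` of its generic point, with values in the function field `K` of `X`; the prime divisors
of `X` are places `P` of `K`, `P.ord` is the order along `P`; `kodairaDim` and `numericalDim` are the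
literal definitions of the Kodaira and of the numerical dimension by means of the dimensions of the
spaces of sections of `m K_X` and of `m K_X + A`. `E i` is the function field of `W_i`, `E 0` the one of
`Y`. Definitions: `Pool/Agent/X140/FL/CanDefs` (`CanonicalProductFibres`), `FL/Defs`
(`ProductMultiplicities`), `X180/OD/BaseDefs` (`BaseKodGe`), `X180/OD/Defs` (`IsTower`,
`OrbifoldKodGe`, `images`).

Proof: the new part is the construction of pluricanonical forms along the fibres of `X` over `W_l`
(`Pool.Agent.X140.FL.lco_low`): products of logarithmic forms of the arrangement and of the forms of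
the orbifold are multiplied by a power of the joint determinant of the derivatives of the coordinates
of the projective spaces and of `V`; their orders at the places `Q` of `X'` are estimated by the
determinants of the logarithmic derivatives of the quotients of the linear forms and of a frame of
`V` at the centre of `Q`, which are multiplied, so that the two contributions add up. The norms of
these forms are forms along the fibres of `X`. They are composed with the forms of the steps and with
those of the orbifold base (`Pool.Agent.X180.OD`). For the upper bounds, the traces of the pull backs
to `X'` of the sections of `m K_X + A` are considered over the compositum of `W'` and `V`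
(`Pool.Agent.Y191.lc_ab`).
-/

set_option autoImplicit false

open FF Pool.Agent.W602.GT Pool.Agent.Y172 Pool.Agent.Y191 Pool.Agent.X180.OP Pool.Agent.X180.OD
open Pool.Agent.X140.FL

namespace Pool.Agent.Results.MP_f72953_ag.ProductFibresOverOrbifoldBases

/-- **Iitaka's inequality.** Let `X` be a projective variety with canonical singularities and
`X ⇢ W_l ⇢ ... ⇢ W_0 = Y` a tower of dominant rational maps such that the orbifold base of `X ⇢ Y` has
Kodaira dimension at least `k`, the steps are as in `OrbifoldFibres` or `ConstantFibres` for the prime
divisors of `X`, of dimensions `e i` and log Kodaira dimensions `lam i`, and the fibres of `X` over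
`W_l` are as in `CanonicalProductFibres`, with an orbifold of dimension `f` and Kodaira dimension at
least `κ`. If `r j + 1 ≤ ∑ i, w j i` for all `j` then `κ(X) ≥ k + ∑ i, lam i + κ + big`; otherwise
`κ(X) = ν(X) = -∞`. If `k = dim Y`, `lam i = e i` for all `i` and `κ = f`, then moreover
`κ(X) = ν(X) = dim W_l + f + big` in the first case. -/
theorem result (K : Type) [Field K] [Algebra ℂ K] (N l c k f κ : ℕ)
    (E : Fin (l + 1) → IntermediateField ℂ K) (D : Fin (l + 1) → ℕ) (e lam : Fin l → ℕ)
    (r s : Fin c → ℕ) (y : Fin (N + 1) → K)
    (hy : IsCanonicalVariety y (D (Fin.last l) + f + ∑ j, r j)) [Algebra.EssFiniteType ℂ (E 0)]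
    (hY : BaseKodGe {P | IsPrimeDivisor y P} (E 0) (D 0) k)
    (hT : IsTower {P | IsPrimeDivisor y P} (fun _ => 0) E D e lam)
    (w : ∀ j, Fin (s j) → ℚ) (hF : CanonicalProductFibres y (E (Fin.last l)) f κ r s w) :
    CanonicalNonvanishing y (D (Fin.last l) + f + ∑ j, r j) (k + ∑ i, lam i + κ + big r s w)
      r s w ∧
      (k = D 0 → (∀ i, lam i = e i) → κ = f →
        CanonicalAbundance y (D (Fin.last l) + f + ∑ j, r j) (D (Fin.last l) + f) r s w) := by
  have hn : D (Fin.last l) + f + ∑ j, r j = D 0 + (∑ i, e i + (∑ j, r j + f)) := by
    rw [Pool.Agent.X180.TP.dims fun i => (hT.2 i).2.1]
    omega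
  have hK : Algebra.trdeg ℂ K = (D 0 + (∑ i, e i + (∑ j, r j + f)) : ℕ) := by
    rw [← hn]
    exact hy.2.1
  refine ⟨can_non' hy hT hF fun lam' h0 => orb_base hK (hT.1 0) hY h0, fun hk hle hκ => ?_⟩
  subst hk hκ
  exact can_ab' hy hT hle hF fun lam' h0 => orb_base hK (hT.1 0) hY h0

end Pool.Agent.Results.MP_f72953_ag.ProductFibresOverOrbifoldBases
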